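import Pool.Agent.helper23.TH.Spec

set_option autoImplicit false

open scoped BigOperators Topology
open Filter

namespace Pool.Agent.helper23.TH

/-- The pair of walks is good. -/
def FP_good {V : Type} (R : V → V → Prop) (k : ℕ) (P P' : Fin (k + 2) → V) : Prop :=
  (∀ i j, i ≠ j → ¬ R (P i) (P j)) ∧ (∀ i j, i ≠ j → ¬ R (P' i) (P' j)) ∧
    ∀ i j, ¬ (i = 0 ∧ j = 0) → ¬ (i = Fin.last (k + 1) ∧ j = Fin.last (k + 1)) →
      ¬ R (P i) (P' j)

theorem FP_good_symm {V : Type} {R : V → V → Prop} (hR : ∀ u v, R u v → R v u) {k : ℕ}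
    {P P' : Fin (k + 2) → V} (h : FP_good R k P P') : FP_good R k P' P := by
  refine ⟨h.2.1, h.1, fun i j h1 h2 h3 => h.2.2 j i ?_ ?_ (hR _ _ h3)⟩
  · rintro ⟨a, b⟩; exact h1 ⟨b, a⟩
  · rintro ⟨a, b⟩; exact h2 ⟨b, a⟩

theorem FP_not_good_self {V : Type} {R : V → V → Prop} (hR : ∀ v, R v v) {k : ℕ} (hk : 1 ≤ k)
    (P : Fin (k + 2) → V) : ¬ FP_good R k P P := by
  intro h
  have h1 : (1 : Fin (k + 2)) ≠ 0 := by
    intro h0
    have := congrArg Fin.val h0
    simp at this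
  have h2 : (1 : Fin (k + 2)) ≠ Fin.last (k + 1) := by
    intro h0
    have := congrArg Fin.val h0
    simp at this
    omega
  exact h.2.2 1 1 (fun h0 => h1 h0.1) (fun h0 => h2 h0.1) (hR _)

theorem FP_cast_ne {k : ℕ} {i j : Fin (k + 2)} (h : i ≠ j) :
    ((i.1 : ℕ) : ZMod (2 * k + 2)) ≠ ((j.1 : ℕ) : ZMod (2 * k + 2)) := by
  intro hc
  rw [ZMod.natCast_eq_natCast_iff'] at hc
  have hi := i.2
  have hj := j.2
  rcases Nat.eq_zero_or_pos k with h0 | h0
  · subst h0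
    rw [Nat.mod_eq_of_lt (by omega), Nat.mod_eq_of_lt (by omega)] at hc
    exact h (Fin.ext hc)
  · rw [Nat.mod_eq_of_lt (by omega), Nat.mod_eq_of_lt (by omega)] at hc
    exact h (Fin.ext hc)

theorem FP_cast_ne_neg {k : ℕ} {i j : Fin (k + 2)} (h0 : ¬ (i = 0 ∧ j = 0))
    (h1 : ¬ (i = Fin.last (k + 1) ∧ j = Fin.last (k + 1))) :
    ((i.1 : ℕ) : ZMod (2 * k + 2)) ≠ -((j.1 : ℕ) : ZMod (2 * k + 2)) := by
  intro hc
  have hs : (((i.1 + j.1 : ℕ)) : ZMod (2 * k + 2)) = 0 := by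
    push_cast
    rw [hc]
    ring
  rw [ZMod.natCast_eq_zero_iff] at hs
  have hi := i.2
  have hj := j.2
  obtain ⟨c, hc'⟩ := hs
  have hc2 : c = 0 ∨ c = 1 := by
    rcases Nat.lt_or_ge c 2 with h | h
    · omega
    · exfalso
      have : (2 * k + 2) * 2 ≤ (2 * k + 2) * c := Nat.mul_le_mul_left _ h
      omega
  rcases hc2 with rfl | rfl
  · exact h0 ⟨Fin.ext (by simp only [Fin.val_zero]; omega), Fin.ext (by simp only [Fin.val_zero]; omega)⟩
  · exact h1 ⟨Fin.ext (by simp only [Fin.val_last]; omega), Fin.ext (by simp only [Fin.val_last]; omega)⟩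

open Classical in
/-- The number of bad pairs of walks is at most the number of bad closed walks. -/
theorem FP_bad_le (hGLU : GLU_stmt) {V : Type} [Fintype V] (A R : V → V → Prop)
    (hA : ∀ u v, A u v → A v u) (k : ℕ) :
    ((Finset.univ : Finset ((Fin (k + 2) → V) × (Fin (k + 2) → V))).filter
      (fun q => (Wk A (k + 1) q.1 ∧ Wk A (k + 1) q.2 ∧ q.1 0 = q.2 0 ∧
        q.1 (Fin.last (k + 1)) = q.2 (Fin.last (k + 1))) ∧ ¬ FP_good R k q.1 q.2)).card ≤
    ∑ ij ∈ (Finset.univ : Finset (ZMod (2 * k + 2) × ZMod (2 * k + 2))).filter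
      (fun ij => ij.1 ≠ ij.2),
      ((Finset.univ : Finset (ZMod (2 * k + 2) → V)).filter
        (fun z => CWk A k z ∧ R (z ij.1) (z ij.2))).card := by
  obtain ⟨-, -, hsurj⟩ := hGLU V A hA k
  let Φ : (ZMod (2 * k + 2) → V) → (Fin (k + 2) → V) × (Fin (k + 2) → V) := fun z =>
      ((fun i : Fin (k + 2) => z (i.1 : ZMod (2 * k + 2))),
        (fun i : Fin (k + 2) => z (-(i.1 : ZMod (2 * k + 2)))))
  refine le_trans (Finset.card_le_card (t := (((Finset.univ : Finset (ZMod (2 * k + 2) ×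
    ZMod (2 * k + 2))).filter (fun ij => ij.1 ≠ ij.2)).biUnion fun ij =>
      ((Finset.univ : Finset (ZMod (2 * k + 2) → V)).filter
        (fun z => CWk A k z ∧ R (z ij.1) (z ij.2)))).image Φ) ?_)
    (le_trans Finset.card_image_le Finset.card_biUnion_le)
  intro q hq
  obtain ⟨hq1, hq2⟩ := (Finset.mem_filter.1 hq).2
  obtain ⟨z, hz, hzq⟩ := hsurj (show q ∈ {q : (Fin (k + 2) → V) × (Fin (k + 2) → V) |
    Wk A (k + 1) q.1 ∧ Wk A (k + 1) q.2 ∧ q.1 0 = q.2 0 ∧
      q.1 (Fin.last (k + 1)) = q.2 (Fin.last (k + 1))} from hq1)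
  rw [Finset.mem_image]
  refine ⟨z, ?_, hzq⟩
  have e1 : ∀ i, q.1 i = z (i.1 : ZMod (2 * k + 2)) := fun i => by rw [← hzq]
  have e2 : ∀ i, q.2 i = z (-(i.1 : ZMod (2 * k + 2))) := fun i => by rw [← hzq]
  have hex : ∃ i j : ZMod (2 * k + 2), i ≠ j ∧ R (z i) (z j) := by
    unfold FP_good at hq2
    rw [not_and_or, not_and_or] at hq2
    rcases hq2 with h | h | h
    · push Not at h
      obtain ⟨i, j, hij, hR⟩ := h
      rw [e1, e1] at hR
      exact ⟨_, _, FP_cast_ne hij, hR⟩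
    · push Not at h
      obtain ⟨i, j, hij, hR⟩ := h
      rw [e2, e2] at hR
      exact ⟨_, _, fun hc => FP_cast_ne hij (neg_injective hc), hR⟩
    · by_contra hno
      apply h
      intro i j h0 h1 hR
      rw [e1, e2] at hR
      exact hno ⟨_, _, FP_cast_ne_neg h0 h1, hR⟩
  obtain ⟨i, j, hij, hR⟩ := hex
  rw [Finset.mem_biUnion]
  exact ⟨(i, j), Finset.mem_filter.2 ⟨Finset.mem_univ _, hij⟩,
    Finset.mem_filter.2 ⟨Finset.mem_univ _, hz, hR⟩⟩

open Classical in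
/-- If there is no family as claimed then many pairs of walks are bad. -/
theorem FP_many (hWC : WC_stmt) (hTU : TU_stmt) {V : Type} [Fintype V] (A R : V → V → Prop)
    (hR : ∀ u v, R u v → R v u) (hR0 : ∀ v, R v v) (k p : ℕ) (hk : 1 ≤ k) (hp : 2 ≤ p)
    (hno : ¬ ∃ P : Fin p → Fin (k + 2) → V, (∀ t, Wk A (k + 1) (P t)) ∧
    (∀ t t', P t 0 = P t' 0 ∧ P t (Fin.last (k + 1)) = P t' (Fin.last (k + 1))) ∧
    (∀ t i j, i ≠ j → ¬ R (P t i) (P t j)) ∧
    (∀ t t', t ≠ t' → ∀ i j, ¬ (i = 0 ∧ j = 0) → ¬ (i = Fin.last (k + 1) ∧ j = Fin.last (k + 1)) →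
      ¬ R (P t i) (P t' j))) :
    hh A (k + 1) ≤ (p : ℝ) * (((Finset.univ : Finset ((Fin (k + 2) → V) × (Fin (k + 2) → V))).filter
      (fun q => (Wk A (k + 1) q.1 ∧ Wk A (k + 1) q.2 ∧ q.1 0 = q.2 0 ∧
        q.1 (Fin.last (k + 1)) = q.2 (Fin.last (k + 1))) ∧ ¬ FP_good R k q.1 q.2)).card : ℝ) := by
  set Bp := ((Finset.univ : Finset ((Fin (k + 2) → V) × (Fin (k + 2) → V))).filter
      (fun q => (Wk A (k + 1) q.1 ∧ Wk A (k + 1) q.2 ∧ q.1 0 = q.2 0 ∧
        q.1 (Fin.last (k + 1)) = q.2 (Fin.last (k + 1))) ∧ ¬ FP_good R k q.1 q.2)) with hBp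
  have hcount : Bp.card = ∑ ab ∈ (Finset.univ : Finset (V × V)),
      (Bp.filter (fun q => (q.1 0, q.1 (Fin.last (k + 1))) = ab)).card :=
    Finset.card_eq_sum_card_fiberwise (fun q _ => Finset.mem_coe.2 (Finset.mem_univ _))
  have hab : ∀ a b : V, ((am A ^ (k + 1)) a b) ^ 2 ≤
      (p : ℝ) * ((Bp.filter (fun q => (q.1 0, q.1 (Fin.last (k + 1))) = (a, b))).card : ℝ) := by
    intro a b
    set W := (Finset.univ : Finset (Fin (k + 1 + 1) → V)).filter
      (fun P => Wk A (k + 1) P ∧ P 0 = a ∧ P (Fin.last (k + 1)) = b) with hW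
    have hWm : ∀ P : Fin (k + 2) → V, P ∈ W ↔
        Wk A (k + 1) P ∧ P 0 = a ∧ P (Fin.last (k + 1)) = b := fun P => by
      rw [hW, Finset.mem_filter]
      exact ⟨fun h => h.2, fun h => ⟨Finset.mem_univ _, h⟩⟩
    have hc : (W.card : ℝ) = (am A ^ (k + 1)) a b := hWC V A (k + 1) a b
    have ht := hTU {P : Fin (k + 2) → V // P ∈ W} (fun P P' => FP_good R k P.1 P'.1)
      (fun P P' h => FP_good_symm hR h) p hp ?_
    · rw [Fintype.card_coe] at ht
      have hle : ((Finset.univ : Finset ({P : Fin (k + 2) → V // P ∈ W} ×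
          {P : Fin (k + 2) → V // P ∈ W})).filter
            (fun q => q.1 = q.2 ∨ ¬ FP_good R k q.1.1 q.2.1)).card ≤
          (Bp.filter (fun q => (q.1 0, q.1 (Fin.last (k + 1))) = (a, b))).card := by
        refine Finset.card_le_card_of_injOn (fun q => (q.1.1, q.2.1)) ?_ ?_
        · rintro ⟨⟨P, hP⟩, ⟨P', hP'⟩⟩ hq
          have hP1 := (hWm P).1 hP
          have hP2 := (hWm P').1 hP'
          have hq' := (Finset.mem_filter.1 (Finset.mem_coe.1 hq)).2
          simp only at hq'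
          refine Finset.mem_coe.2 (Finset.mem_filter.2 ⟨Finset.mem_filter.2
            ⟨Finset.mem_univ _, ⟨hP1.1, hP2.1, hP1.2.1.trans hP2.2.1.symm,
              hP1.2.2.trans hP2.2.2.symm⟩, ?_⟩, ?_⟩)
          · rcases hq' with h | h
            · have h' : P = P' := congrArg Subtype.val h
              show ¬ FP_good R k P P'
              rw [← h']
              exact FP_not_good_self hR0 hk P
            · exact h
          · simp only
            rw [hP1.2.1, hP1.2.2]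
        · rintro ⟨⟨P, hP⟩, ⟨P', hP'⟩⟩ - ⟨⟨Q, hQ⟩, ⟨Q', hQ'⟩⟩ - h
          simp only [Prod.mk.injEq] at h
          simp only [Prod.mk.injEq, Subtype.mk.injEq]
          exact h
      have h3 : W.card ^ 2 ≤ p *
          (Bp.filter (fun q => (q.1 0, q.1 (Fin.last (k + 1))) = (a, b))).card :=
        le_trans ht (Nat.mul_le_mul_left _ (by convert hle))
      rw [← hc]
      exact_mod_cast h3
    · rintro ⟨f, -, hf⟩
      apply hno
      refine ⟨fun t => (f t).1, fun t => ((hWm _).1 (f t).2).1, fun t t' => ⟨?_, ?_⟩,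
        fun t i j hij => ?_, fun t t' htt i j h0 h1 => (hf t t' htt).2.2 i j h0 h1⟩
      · exact ((hWm _).1 (f t).2).2.1.trans ((hWm _).1 (f t').2).2.1.symm
      · exact ((hWm _).1 (f t).2).2.2.trans ((hWm _).1 (f t').2).2.2.symm
      · obtain ⟨t', htt⟩ : ∃ t' : Fin p, t ≠ t' := by
          have : Nontrivial (Fin p) := Fin.nontrivial_iff_two_le.2 hp
          obtain ⟨t', h⟩ := exists_ne t
          exact ⟨t', h.symm⟩
        exact (hf t t' htt).1 i j hij
  rw [hcount]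
  push_cast
  rw [Finset.mul_sum, ← Finset.univ_product_univ, Finset.sum_product]
  unfold hh
  exact Finset.sum_le_sum fun a _ => Finset.sum_le_sum fun b _ => hab a b

open Classical in
theorem FP (hWC : WC_stmt) (hWI : WI_stmt) (hGLU : GLU_stmt) (hBAD : BAD_stmt)
    (hTU : TU_stmt) : FP_stmt := by
  intro k p s K hk hp hK
  set n₀ : ℝ := 2 * k + 2 with hn₀
  have hn₀' : 0 < n₀ := by positivity
  have hp' : (0 : ℝ) < p := by
    have : 0 < p := by omega
    exact_mod_cast this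
  have hsK : 0 ≤ (s : ℝ) * K := by positivity
  refine ⟨(s * K + 1) * (2 * p * n₀ ^ 2) ^ 2, by positivity, ?_⟩
  intro V _ A R hA hR hR0 hs hM0 hD hreg
  by_contra hno
  set M : ℝ := (Fintype.card V : ℝ) with hM
  set D : ℝ := ∑ v, (dg A Finset.univ v : ℝ) with hDdef
  have hMpos : 0 < M := Nat.cast_pos.2 hM0
  have hDpos : 0 < D := lt_of_lt_of_le (by positivity) hD
  obtain ⟨hH, hWI'⟩ := hWI V A hA (k + 1) (by omega) hDpos
  simp only [Nat.add_sub_cancel] at hWI'
  set H := hh A (k + 1) with hHdef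
  set h := hh A k with hhdef
  have hh0 : 0 ≤ h := by
    rw [hhdef]
    unfold hh
    exact Finset.sum_nonneg fun a _ => Finset.sum_nonneg fun b _ => sq_nonneg _
  set e : ℝ := M ^ (1 / ((k : ℝ) + 1)) with he
  have hepos : 0 < e := Real.rpow_pos_of_pos hMpos _
  have hWI2 : h * (D / M) ^ 2 ≤ e * H := by
    have : ((k + 1 : ℕ) : ℝ) = (k : ℝ) + 1 := by push_cast; ring
    rw [this] at hWI'
    exact hWI'
  have hDe : (s * K + 1) * (2 * p * n₀ ^ 2) ^ 2 * (M * e) ≤ D := by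
    rw [he]
    have : M ^ (1 + 1 / ((k : ℝ) + 1)) = M * M ^ (1 / ((k : ℝ) + 1)) := by
      rw [Real.rpow_add hMpos, Real.rpow_one]
    rw [← this]
    exact hD
  -- the maximal degree
  set Δ : ℕ := ⌊K * D / M⌋₊ with hΔ
  have hΔ1 : (Δ : ℝ) ≤ K * D / M := Nat.floor_le (by positivity)
  have hΔ2 : ∀ v, dg A Finset.univ v ≤ Δ := by
    intro v
    rw [hΔ]
    refine Nat.le_floor ?_
    rw [le_div_iff₀ hMpos]
    exact hreg v
  -- each class of bad closed walks is small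
  have hB : ∀ i j : ZMod (2 * k + 2), i ≠ j →
      (((Finset.univ : Finset (ZMod (2 * k + 2) → V)).filter
        (fun z => CWk A k z ∧ R (z i) (z j))).card : ℝ) ≤ H / (2 * p * n₀ ^ 2) := by
    intro i j hij
    have hb := hBAD V A R hA hR s Δ hs hΔ2 k i j hij
    set B : ℝ := (((Finset.univ : Finset (ZMod (2 * k + 2) → V)).filter
        (fun z => CWk A k z ∧ R (z i) (z j))).card : ℝ)
    have hB0 : 0 ≤ B := Nat.cast_nonneg _
    have h1 : (s : ℝ) * Δ * h * H ≤ s * (K * D / M) * h * H := by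
      gcongr
    -- `h ≤ e H (M / D) ^ 2`
    have h2 : h ≤ e * H * (M / D) ^ 2 := by
      have : h = h * (D / M) ^ 2 * (M / D) ^ 2 := by
        field_simp
      rw [this]
      gcongr
    have h3 : (s : ℝ) * (K * D / M) * h * H ≤ s * (K * D / M) * (e * H * (M / D) ^ 2) * H := by
      gcongr
    have h4 : (s : ℝ) * (K * D / M) * (e * H * (M / D) ^ 2) * H = (s * K) * (M * e / D) * H ^ 2 := by
      field_simp
    have h5 : (s : ℝ) * K * (M * e / D) ≤ (1 / (2 * p * n₀ ^ 2)) ^ 2 := by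
      rw [div_pow, one_pow, mul_div_assoc', div_le_div_iff₀ hDpos (by positivity), one_mul]
      refine le_trans ?_ hDe
      have h6 : (s : ℝ) * K * (M * e) * (2 * p * n₀ ^ 2) ^ 2 ≤
          (s * K + 1) * (M * e) * (2 * p * n₀ ^ 2) ^ 2 := by
        gcongr
        linarith
      linarith
    have h7 : B ^ 2 ≤ (H / (2 * p * n₀ ^ 2)) ^ 2 := by
      calc B ^ 2 ≤ s * Δ * h * H := hb
        _ ≤ s * (K * D / M) * h * H := h1
        _ ≤ s * (K * D / M) * (e * H * (M / D) ^ 2) * H := h3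
        _ = (s * K) * (M * e / D) * H ^ 2 := h4
        _ ≤ (1 / (2 * p * n₀ ^ 2)) ^ 2 * H ^ 2 := by gcongr
        _ = (H / (2 * p * n₀ ^ 2)) ^ 2 := by ring
    exact (pow_le_pow_iff_left₀ hB0 (by positivity) two_ne_zero).1 h7
  have hmany := FP_many hWC hTU A R hR hR0 k p hk hp hno
  have hle := FP_bad_le hGLU A R hA k
  have hsum : ((∑ ij ∈ (Finset.univ : Finset (ZMod (2 * k + 2) × ZMod (2 * k + 2))).filter
      (fun ij => ij.1 ≠ ij.2),
      ((Finset.univ : Finset (ZMod (2 * k + 2) → V)).filter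
        (fun z => CWk A k z ∧ R (z ij.1) (z ij.2))).card : ℕ) : ℝ) ≤ H / (2 * p) := by
    push_cast
    refine le_trans (Finset.sum_le_sum (g := fun _ => H / (2 * p * n₀ ^ 2)) fun ij hij =>
      hB ij.1 ij.2 (Finset.mem_filter.1 hij).2) ?_
    rw [Finset.sum_const, nsmul_eq_mul]
    have hcard : (((Finset.univ : Finset (ZMod (2 * k + 2) × ZMod (2 * k + 2))).filter
      (fun ij => ij.1 ≠ ij.2)).card : ℝ) ≤ n₀ ^ 2 := by
      have h1 : ((Finset.univ : Finset (ZMod (2 * k + 2) × ZMod (2 * k + 2))).filter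
        (fun ij => ij.1 ≠ ij.2)).card ≤ (2 * k + 2) * (2 * k + 2) := by
        refine le_trans (Finset.card_filter_le _ _) ?_
        rw [Finset.card_univ, Fintype.card_prod, ZMod.card]
      have h2 : (((Finset.univ : Finset (ZMod (2 * k + 2) × ZMod (2 * k + 2))).filter
        (fun ij => ij.1 ≠ ij.2)).card : ℝ) ≤ (2 * k + 2) * (2 * k + 2) := by
        exact_mod_cast h1
      rw [hn₀, sq]
      exact h2
    calc _ ≤ n₀ ^ 2 * (H / (2 * p * n₀ ^ 2)) := by gcongr
      _ = H / (2 * p) := by field_simp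
  have hfin : H ≤ p * (H / (2 * p)) := by
    refine le_trans hmany ?_
    gcongr
    refine le_trans ?_ hsum
    exact_mod_cast hle
  have : p * (H / (2 * p)) = H / 2 := by field_simp
  rw [this] at hfin
  linarith

end Pool.Agent.helper23.TH
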