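import Pool.Agent.helper23.TH.Spec

set_option autoImplicit false

open scoped BigOperators Topology
open Filter

namespace Pool.Agent.helper23.TH

theorem ISO_two {W W' V K : Type*} (H : SimpleGraph W) (e : W' ≃ W) (χ : V → V → K) :
    Two (H.comap e) χ ↔ Two H χ := by
  constructor
  · rintro ⟨φ, ψ, hφ, hψ, hd, hc⟩
    refine ⟨φ ∘ e.symm, ψ ∘ e.symm, hφ.comp e.symm.injective, hψ.comp e.symm.injective,
      fun u v => hd _ _, fun u v h => hc _ _ ?_⟩
    simpa [SimpleGraph.comap_adj] using h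
  · rintro ⟨φ, ψ, hφ, hψ, hd, hc⟩
    refine ⟨φ ∘ e, ψ ∘ e, hφ.comp e.injective, hψ.comp e.injective,
      fun u v => hd _ _, fun u v h => hc _ _ ?_⟩
    simpa [SimpleGraph.comap_adj] using h

theorem ISO : ISO_stmt := by
  intro W _ H r hH hL
  classical
  let e : Fin (Fintype.card W) ≃ W := (Fintype.equivFin W).symm
  refine ⟨Fintype.card W, H.comap e, ?_, ?_⟩
  · obtain ⟨C⟩ := hH
    exact ⟨C.comp (SimpleGraph.Hom.comap e H)⟩
  · obtain ⟨c, C, hc, hC, N, h⟩ := hL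
    refine ⟨c, C, hc, hC, N, fun n hn => ⟨?_, ?_⟩⟩
    · obtain ⟨m, hm, χ, h1, h2⟩ := (h n hn).1
      exact ⟨m, hm, χ, h1, fun h3 => h2 ((ISO_two H e χ).1 h3)⟩
    · intro m χ h1 h2
      exact (h n hn).2 m χ h1 (fun h3 => h2 ((ISO_two H e χ).2 h3))

end Pool.Agent.helper23.TH
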