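import Pool.Agent.helper23.TH.Spec

set_option autoImplicit false

open scoped BigOperators Topology
open Filter

namespace Pool.Agent.helper23.TH

open Classical in
theorem TU : TU_stmt := by
  intro α _ g hg p hp hno
  let G : SimpleGraph α :=
    { Adj := fun x y => x ≠ y ∧ g x y
      symm := ⟨fun x y h => ⟨h.1.symm, hg _ _ h.2⟩⟩
      loopless := ⟨fun x h => h.1 rfl⟩ }
  obtain ⟨r, rfl⟩ : ∃ r, p = r + 1 := ⟨p - 1, by omega⟩
  have hr : 0 < r := by omega
  have hcf : G.CliqueFree (r + 1) := by
    by_contra hc
    have φ := SimpleGraph.topEmbeddingOfNotCliqueFree hc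
    refine hno ⟨φ, φ.injective, fun i j hij => ?_⟩
    have h : G.Adj (φ i) (φ j) := by
      rw [φ.map_adj_iff]
      exact hij
    exact h.2
  have hE : 2 * r * G.edgeFinset.card ≤ (r - 1) * (Fintype.card α) ^ 2 := by
    obtain ⟨H, _, maxH⟩ := SimpleGraph.exists_isTuranMaximal (V := α) hr
    have h1 : G.edgeFinset.card ≤ H.edgeFinset.card := by
      convert maxH.2 hcf
    have h2 := ((SimpleGraph.isTuranMaximal_iff_nonempty_iso_turanGraph hr).mp maxH).some.card_edgeFinset_eq
    have h3 := SimpleGraph.mul_card_edgeFinset_turanGraph_le (n := Fintype.card α) (r := r)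
    rw [← h2] at h3
    exact le_trans (Nat.mul_le_mul_left _ h1) h3
  have hA : 2 * G.edgeFinset.card = (Finset.univ.filter (fun q : α × α => G.Adj q.1 q.2)).card := by
    have := G.two_mul_card_edgeFinset
    convert this
  have hN : (Finset.univ.filter (fun q : α × α => G.Adj q.1 q.2)).card +
      ((Finset.univ : Finset (α × α)).filter (fun q => q.1 = q.2 ∨ ¬ g q.1 q.2)).card
        = (Fintype.card α) ^ 2 := by
    have h := Finset.card_filter_add_card_filter_not (s := (Finset.univ : Finset (α × α)))
      (fun q : α × α => G.Adj q.1 q.2)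
    rw [Finset.card_univ, Fintype.card_prod, ← sq] at h
    rw [← h]
    congr 2
    ext q
    simp only [Finset.mem_filter, Finset.mem_univ, true_and]
    constructor
    · rintro (h | h) ⟨h1, h2⟩
      · exact h1 h
      · exact h h2
    · intro h
      by_contra hc
      push Not at hc
      exact h ⟨hc.1, hc.2⟩
  generalize ((Finset.univ : Finset (α × α)).filter (fun q => q.1 = q.2 ∨ ¬ g q.1 q.2)).card = N at *
  generalize (Finset.univ.filter (fun q : α × α => G.Adj q.1 q.2)).card = A at *
  generalize (Fintype.card α) ^ 2 = n at *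
  obtain ⟨k, rfl⟩ : ∃ k, r = k + 1 := ⟨r - 1, by omega⟩
  have h1 : (k + 1) * A ≤ k * n := by
    have : 2 * (k + 1) * G.edgeFinset.card = (k + 1) * A := by rw [← hA]; ring
    rw [this] at hE
    simpa using hE
  subst hN
  nlinarith

end Pool.Agent.helper23.TH
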