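import Pool.Agent.helper9.TH.Spec

namespace Pool.Agent.helper75.TH
open Pool.Agent.helper9.TH
universe u

theorem S5 (hPBb : PBb_stmt.{u}) : S5_stmt.{u} := by
  intro p G _ _ U hUn hp hUp hmax hno hPN g hg
  have := Fact.mk hp
  obtain ⟨K', hK'n, hK'c, k, hK'i⟩ := hPN
  -- the centralizer of `U`
  let C : Subgroup G :=
    { carrier := {g | ∀ x ∈ U, g * x = x * g}
      one_mem' := fun x _ => by simp
      mul_mem' := by
        rintro a b ha hb x hx
        rw [mul_assoc, hb x hx, ← mul_assoc, ha x hx, mul_assoc]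
      inv_mem' := by
        rintro a ha x hx
        exact ((show Commute a x from ha x hx).inv_left).eq }
  have memC : ∀ g, g ∈ C ↔ ∀ x ∈ U, g * x = x * g := fun g => Iff.rfl
  have hCn : C.Normal := by
    refine ⟨fun n hn g => ?_⟩
    rw [memC] at hn ⊢
    intro x hx
    have h1 : g⁻¹ * x * g ∈ U := by
      have := hUn.conj_mem x hx g⁻¹
      simpa using this
    have h2 := hn _ h1
    calc g * n * g⁻¹ * x = g * (n * (g⁻¹ * x * g)) * g⁻¹ := by group
      _ = g * ((g⁻¹ * x * g) * n) * g⁻¹ := by rw [h2]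
      _ = x * (g * n * g⁻¹) := by group
  let K : Subgroup G := K'.comap (QuotientGroup.mk' U)
  have hKn : K.Normal := hK'n.comap _
  let L : Subgroup G := C ⊓ K
  have hLn : L.Normal := Subgroup.normal_inf_normal C K
  let f : L →* G ⧸ U := (QuotientGroup.mk' U).comp L.subtype
  let N : Subgroup L := f.ker
  have memN : ∀ x : L, x ∈ N ↔ (x : G) ∈ U := by
    intro x
    change f x = 1 ↔ _
    exact QuotientGroup.eq_one_iff _
  -- `N` is a `p`-group
  have hNp : IsPGroup p N := by
    rintro ⟨x, hx⟩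
    obtain ⟨j, hj⟩ := hUp ⟨x, (memN x).1 hx⟩
    refine ⟨j, ?_⟩
    apply Subtype.ext
    apply Subtype.ext
    have := congrArg Subtype.val hj
    simpa using this
  obtain ⟨a, ha⟩ := (IsPGroup.iff_card).1 hNp
  have hidx : N.index.Coprime p := by
    have h1 : N.index = Nat.card f.range := Subgroup.index_ker f
    have h2 : f.range ≤ K' := by
      rintro _ ⟨x, rfl⟩
      have := x.2.2
      exact this
    rw [h1]
    exact Nat.Coprime.coprime_dvd_left (Subgroup.card_dvd_of_le h2) hK'c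
  have hcop : (Nat.card N).Coprime N.index := by
    rw [ha]
    exact (hidx.symm).pow_left a
  obtain ⟨H, hH⟩ := Subgroup.exists_right_complement'_of_coprime hcop
  have hcomm : ∀ n ∈ N, ∀ x : L, x * n = n * x := by
    intro n hn x
    apply Subtype.ext
    exact x.2.1 n ((memN n).1 hn)
  have hHn : H.Normal := by
    refine ⟨fun h hh x => ?_⟩
    obtain ⟨⟨⟨n, hn⟩, ⟨h', hh'⟩⟩, hx⟩ := hH.2 x
    have hx' : n * h' = x := hx
    have e : x * h * x⁻¹ = h' * h * h'⁻¹ := by
      have h1 := hcomm n hn (h' * h * h'⁻¹)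
      calc x * h * x⁻¹ = (n * (h' * h * h'⁻¹)) * n⁻¹ := by rw [← hx']; group
        _ = ((h' * h * h'⁻¹) * n) * n⁻¹ := by rw [h1]
        _ = h' * h * h'⁻¹ := by group
    rw [e]
    exact H.mul_mem (H.mul_mem hh' hh) (H.inv_mem hh')
  have hHi : H.index = Nat.card N := hH.index_eq_card
  have hHc : Nat.card H = N.index := (hH.symm.index_eq_card).symm
  have key := hPBb.1 p L H hp hHn (by rw [hHc]; exact hidx) ⟨a, by rw [hHi, ha]⟩
  -- the complement is normal in `G`
  have hMn : (H.map L.subtype).Normal := by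
    refine ⟨?_⟩
    rintro _ ⟨x, hx, rfl⟩ g
    have hc : g * (x : G) * g⁻¹ ∈ L := hLn.conj_mem x x.2 g
    refine ⟨⟨_, hc⟩, ?_, rfl⟩
    have hx' : x ∈ H := hx
    change (⟨g * (x : G) * g⁻¹, hc⟩ : L) ∈ H
    rw [key] at hx' ⊢
    have e1 : orderOf (⟨g * (x : G) * g⁻¹, hc⟩ : L) = orderOf x := by
      rw [← Subgroup.orderOf_coe, ← Subgroup.orderOf_coe x]
      exact MulEquiv.orderOf_eq (MulAut.conj g) (x : G)
    rw [e1]
    exact hx'
  have hMc : (Nat.card (H.map L.subtype)).Coprime p := by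
    rw [Subgroup.card_map_of_injective L.subtype_injective, hHc]
    exact hidx
  have hbot := hno _ hMn hMc
  have hHbot : H = ⊥ := by
    rw [Subgroup.map_eq_bot_iff_of_injective _ L.subtype_injective] at hbot
    exact hbot
  have hLU : ∀ x ∈ L, x ∈ U := by
    intro x hx
    obtain ⟨⟨⟨n, hn⟩, ⟨h', hh'⟩⟩, hx2⟩ := hH.2 ⟨x, hx⟩
    have hx' : n * h' = ⟨x, hx⟩ := hx2
    have hh2 : h' ∈ H := hh'
    rw [hHbot, Subgroup.mem_bot] at hh2
    rw [hh2, mul_one] at hx'
    have := (memN n).1 hn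
    rw [hx'] at this
    exact this
  have hCp : IsPGroup p C := by
    rintro ⟨x, hx⟩
    have h1 : x ^ (p ^ k) ∈ K := by
      have h2 : K.index = p ^ k := by
        rw [Subgroup.index_comap_of_surjective _ (QuotientGroup.mk'_surjective U), hK'i]
      rw [← h2]
      exact Subgroup.pow_index_mem K x
    have h3 : x ^ (p ^ k) ∈ U := hLU _ ⟨C.pow_mem hx _, h1⟩
    obtain ⟨j, hj⟩ := hUp ⟨_, h3⟩
    refine ⟨k + j, ?_⟩
    apply Subtype.ext
    have h4 := congrArg Subtype.val hj
    simp only [SubmonoidClass.coe_pow, OneMemClass.coe_one] at h4 ⊢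
    rw [pow_add, pow_mul]
    exact h4
  exact hmax C hCn hCp ((memC g).2 hg)

end Pool.Agent.helper75.TH
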