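import Pool.Agent.helper23.TH.Spec

set_option autoImplicit false

open scoped BigOperators Topology
open Filter

namespace Pool.Agent.helper23.TH

/-- SEP -/
theorem SEP : SEP_stmt := by
  intro F _ h2 b x y x' y' hg
  have hu : ∀ i, x i + y i = x' i + y' i := fun i => congrFun hg (Sum.inl i)
  have hv : ∀ i j, (x i - y i) * (x j - y j) = (x' i - y' i) * (x' j - y' j) := by
    intro i j
    have h1 : x i * y j + x j * y i = x' i * y' j + x' j * y' i := congrFun hg (Sum.inr (i, j))
    have hi := hu i
    have hj := hu j
    have e1 : (x i - y i) * (x j - y j) = (x i + y i) * (x j + y j) - 2 * (x i * y j + x j * y i) := by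
      ring
    have e2 : (x' i - y' i) * (x' j - y' j)
        = (x' i + y' i) * (x' j + y' j) - 2 * (x' i * y' j + x' j * y' i) := by ring
    rw [e1, e2, hi, hj, h1]
  have key : (∀ j, x j - y j = x' j - y' j) ∨ (∀ j, x j - y j = -(x' j - y' j)) := by
    by_cases h0 : ∀ i, x i - y i = 0
    · left
      intro j
      have h := hv j j
      rw [h0 j, zero_mul] at h
      have := mul_self_eq_zero.1 h.symm
      rw [h0 j, this]
    · push Not at h0
      obtain ⟨i, hi⟩ := h0
      have h := hv i i
      rcases mul_self_eq_mul_self_iff.1 h with h | h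
      · left
        intro j
        have hj := hv i j
        rw [← h] at hj
        exact mul_left_cancel₀ hi hj
      · right
        intro j
        have hj := hv i j
        have h' : x' i - y' i = -(x i - y i) := by rw [h, neg_neg]
        rw [h'] at hj
        refine mul_left_cancel₀ hi (hj.trans ?_)
        ring
  rcases key with h | h
  · have hx : x = x' := by
      funext i
      have h3 : (2 : F) * x i = 2 * x' i := by linear_combination hu i + h i
      exact mul_left_cancel₀ h2 h3
    have hy : y = y' := by
      funext i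
      have h3 : (2 : F) * y i = 2 * y' i := by linear_combination hu i - h i
      exact mul_left_cancel₀ h2 h3
    rw [hx, hy]
  · have hx : x = y' := by
      funext i
      have h3 : (2 : F) * x i = 2 * y' i := by linear_combination hu i + h i
      exact mul_left_cancel₀ h2 h3
    have hy : y = x' := by
      funext i
      have h3 : (2 : F) * y i = 2 * x' i := by linear_combination hu i - h i
      exact mul_left_cancel₀ h2 h3
    rw [hx, hy]
    exact Sym2.eq_swap

/-- IP -/
theorem IP : IP_stmt := by
  intro F _ b d k w hw hk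
  classical
  rw [Fintype.linearIndependent_iff]
  intro c hc e
  -- the functional vanishes on all polynomials of degree at most `d` in each variable
  have hP : ∀ P : MvPolynomial (Ix b) F, (∀ i, P.degreeOf i ≤ d) →
      ∑ e, c e * MvPolynomial.eval (w e) P = 0 := by
    intro P hP
    have hm : ∀ m ∈ P.support, ∑ e, c e * (∏ i, (w e i) ^ (m i)) = 0 := by
      intro m hm
      let μ : Mon b d := fun i => ⟨m i, Nat.lt_succ_of_le
        (le_trans (MvPolynomial.monomial_le_degreeOf i hm) (hP i))⟩
      have h := congrFun hc μ
      simpa [ev, Finset.sum_apply, μ] using h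
    calc ∑ e, c e * MvPolynomial.eval (w e) P
        = ∑ e, c e * ∑ m ∈ P.support, P.coeff m * ∏ i, (w e i) ^ (m i) := by
          refine Finset.sum_congr rfl fun e _ => ?_
          rw [MvPolynomial.eval_eq']
      _ = ∑ m ∈ P.support, P.coeff m * ∑ e, c e * (∏ i, (w e i) ^ (m i)) := by
          simp_rw [Finset.mul_sum]
          rw [Finset.sum_comm]
          refine Finset.sum_congr rfl fun m _ => Finset.sum_congr rfl fun e _ => ?_
          ring
      _ = 0 := Finset.sum_eq_zero fun m hm' => by rw [hm m hm', mul_zero]
  have hq : ∀ e', ∃ q : MvPolynomial (Ix b) F, (∀ i, q.degreeOf i ≤ 1) ∧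
      (e' ≠ e → MvPolynomial.eval (w e') q = 0 ∧ MvPolynomial.eval (w e) q ≠ 0) := by
    intro e'
    by_cases he : e' = e
    · refine ⟨0, fun i => by rw [MvPolynomial.degreeOf_zero]; omega, fun h => absurd he h⟩
    · obtain ⟨i₀, hi₀⟩ : ∃ i, w e' i ≠ w e i := by
        by_contra h
        push Not at h
        exact he (hw (funext h))
      refine ⟨MvPolynomial.X i₀ - MvPolynomial.C (w e' i₀), fun i => ?_, fun _ => ⟨by simp, ?_⟩⟩
      · refine le_trans (MvPolynomial.degreeOf_sub_le _ _ _) ?_
        rw [MvPolynomial.degreeOf_C]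
        refine max_le ?_ (Nat.zero_le _)
        rw [MvPolynomial.degreeOf_X]
        split_ifs <;> omega
      · simp only [MvPolynomial.eval_sub, MvPolynomial.eval_X, MvPolynomial.eval_C]
        exact sub_ne_zero.2 hi₀.symm
  choose q hq1 hq2 using hq
  let P : MvPolynomial (Ix b) F := ∏ e' ∈ Finset.univ.erase e, q e'
  have hdeg : ∀ i, P.degreeOf i ≤ d := by
    intro i
    have h1 : P.degreeOf i ≤ ∑ e' ∈ Finset.univ.erase e, (q e').degreeOf i :=
      MvPolynomial.degreeOf_prod_le i _ _
    have h2 : ∑ e' ∈ Finset.univ.erase e, (q e').degreeOf i ≤ ∑ e' ∈ Finset.univ.erase e, 1 :=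
      Finset.sum_le_sum fun e' _ => hq1 e' i
    rw [Finset.sum_const, smul_eq_mul, mul_one, Finset.card_erase_of_mem (Finset.mem_univ e),
      Finset.card_univ, Fintype.card_fin] at h2
    omega
  have h := hP P hdeg
  have hz : ∀ e', e' ≠ e → MvPolynomial.eval (w e') P = 0 := by
    intro e' he
    rw [MvPolynomial.eval_prod]
    exact Finset.prod_eq_zero (Finset.mem_erase.2 ⟨he, Finset.mem_univ _⟩) (hq2 e' he).1
  have hne : MvPolynomial.eval (w e) P ≠ 0 := by
    rw [MvPolynomial.eval_prod]
    exact Finset.prod_ne_zero_iff.2 fun e' he' => (hq2 e' (Finset.mem_erase.1 he').1).2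
  rw [Finset.sum_eq_single e (fun e' _ he => by rw [hz e' he, mul_zero])
    (fun h => absurd (Finset.mem_univ e) h)] at h
  exact (mul_eq_zero.1 h).resolve_right hne

end Pool.Agent.helper23.TH
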